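import Pool.Agent.Lib.HC.FinT2
import Pool.Agent.Lib.HC.L.E.All
import Pool.Agent.Lib.CMT.MainT2

/-!
# PROJECT HC+: the three theorems without hypotheses (helper12)
-/

set_option autoImplicit false

noncomputable section

namespace HC

/-- The Hodge conjecture for abelian varieties of CM type. -/
theorem hodgeCM : HodgeCM := hodgeCM_T2 CMT.t2

/-- The Hodge conjecture for `A × B`, `A` of CM type, `B` with perfect Hodge Lie algebra and with
the Hodge conjecture. -/
theorem part2 : Part2 := tPart2 hodgeCM

/-- The Hodge conjecture for `A × B_1 × … × B_n`, `A` of CM type, `B_i` with real multiplication of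
degree `dim B_i`. -/
theorem part3 : Part3 := tPart3 hodgeCM

end HC
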