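import Mathlib

/-!
# PROJECT HC, part (F): the combinatorics of CM types (helper39)

`X` a finite nonempty set with an involution `ρ` without fixed points. A type is a function `f : X → ℕ` with `f x + f (ρ x) = 1`.
`S` a multiset of types with constant sum `k`. Then there are a multiset `A` of types and a multiset `R` of balanced `2`-sets
`{P, conj P}` and `4`-sets `{P, Q, R, U}`, `P + Q + R + U = 2`, with `S + A + conj A = sum of R`.
-/

set_option autoImplicit false

noncomputable section

namespace HC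
namespace Comb

variable {X : Type}

/-- `f` is a type: `f x + f (ρ x) = 1`. -/
def IsTy (ρ : X → X) (f : X → ℕ) : Prop := ∀ x, f x + f (ρ x) = 1

/-- The conjugate type. -/
def cjf (ρ : X → X) (f : X → ℕ) : X → ℕ := fun x => f (ρ x)

/-- A `2`-set `{P, conj P}`. -/
def Two (ρ : X → X) (m : Multiset (X → ℕ)) : Prop := ∃ P, IsTy ρ P ∧ m = {P, cjf ρ P}

/-- A `4`-set `{P, Q, R, U}` of types, `P + Q + R + U = 2`. -/
def Four (ρ : X → X) (m : Multiset (X → ℕ)) : Prop :=
  ∃ P Q R U, IsTy ρ P ∧ IsTy ρ Q ∧ IsTy ρ R ∧ IsTy ρ U ∧ (∀ x, P x + Q x + R x + U x = 2) ∧ m = {P, Q, R, U}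

/-- The basic sets. -/
def Bas (ρ : X → X) (m : Multiset (X → ℕ)) : Prop := Two ρ m ∨ Four ρ m

variable {ρ : X → X}

theorem IsTy.cj {f : X → ℕ} (h : IsTy ρ f) : IsTy ρ (cjf ρ f) := fun x => h (ρ x)

theorem cjf_cjf (hρ : ∀ x, ρ (ρ x) = x) (f : X → ℕ) : cjf ρ (cjf ρ f) = f := by
  funext x
  unfold cjf
  rw [hρ]

theorem Bas.cj {m : Multiset (X → ℕ)} (h : Bas ρ m) : Bas ρ (m.map (cjf ρ)) := by
  rcases h with ⟨P, hP, rfl⟩ | ⟨P, Q, R, U, hP, hQ, hR, hU, hs, rfl⟩
  · left
    refine ⟨cjf ρ P, hP.cj, ?_⟩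
    simp
  · right
    refine ⟨cjf ρ P, cjf ρ Q, cjf ρ R, cjf ρ U, hP.cj, hQ.cj, hR.cj, hU.cj, fun x => hs (ρ x), ?_⟩
    simp

/-- The members of a basic set are types. -/
theorem Bas.ty {m : Multiset (X → ℕ)} (h : Bas ρ m) : ∀ f ∈ m, IsTy ρ f := by
  rcases h with ⟨P, hP, rfl⟩ | ⟨P, Q, R, U, hP, hQ, hR, hU, hs, rfl⟩
  · intro f hf
    simp only [Multiset.insert_eq_cons, Multiset.mem_cons, Multiset.mem_singleton] at hf
    rcases hf with rfl | rfl
    · exact hP
    · exact hP.cj
  · intro f hf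
    simp only [Multiset.insert_eq_cons, Multiset.mem_cons, Multiset.mem_singleton] at hf
    rcases hf with rfl | rfl | rfl | rfl
    · exact hP
    · exact hQ
    · exact hR
    · exact hU

/-! ## The formula for additive functions -/

open Classical in
/-- The type with the support `s` on the half system `H`. -/
private def ty (ρ : X → X) (H s : Finset X) (x : X) : ℕ :=
  if x ∈ H then (if x ∈ s then 1 else 0) else (if ρ x ∈ s then 0 else 1)

private theorem ty_ty {H : Finset X} (hρ : ∀ x, ρ (ρ x) = x) (hH : ∀ x, x ∈ H ↔ ρ x ∉ H) (s : Finset X) :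
    IsTy ρ (ty ρ H s) := by
  intro x
  unfold ty
  by_cases hx : x ∈ H
  · have h2 := (hH x).1 hx
    rw [if_pos hx, if_neg h2, hρ]
    by_cases hs : x ∈ s
    · rw [if_pos hs, if_pos hs]
    · rw [if_neg hs, if_neg hs]
  · have h2 : ρ x ∈ H := by
      by_contra h3
      exact hx ((hH x).2 h3)
    rw [if_neg hx, if_pos h2]
    by_cases hs : ρ x ∈ s
    · rw [if_pos hs, if_pos hs]
    · rw [if_neg hs, if_neg hs]

open Classical in
/-- Every type is determined by its restriction to the half system. -/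
private theorem ty_eq {H : Finset X} (hH : ∀ x, x ∈ H ↔ ρ x ∉ H) {f : X → ℕ}
    (hf : IsTy ρ f) : f = ty ρ H (H.filter (fun x => f x = 1)) := by
  funext x
  have h1 := hf x
  unfold ty
  by_cases hx : x ∈ H
  · rw [if_pos hx]
    by_cases hs : f x = 1
    · rw [if_pos (Finset.mem_filter.2 ⟨hx, hs⟩), hs]
    · have h4 : x ∉ H.filter (fun x => f x = 1) := fun h => hs (Finset.mem_filter.1 h).2
      rw [if_neg h4]
      omega
  · have h2 : ρ x ∈ H := by
      by_contra h3
      exact hx ((hH x).2 h3)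
    rw [if_neg hx]
    by_cases hs : f (ρ x) = 1
    · rw [if_pos (Finset.mem_filter.2 ⟨h2, hs⟩)]
      omega
    · have h4 : ρ x ∉ H.filter (fun x => f x = 1) := fun h => hs (Finset.mem_filter.1 h).2
      rw [if_neg h4]
      omega

open Classical in
/-- The formula. -/
private theorem phi_ty {Q : Type*} [AddCommGroup Q] {H : Finset X} (hρ : ∀ x, ρ (ρ x) = x)
    (hH : ∀ x, x ∈ H ↔ ρ x ∉ H) (φ : (X → ℕ) → Q) (h2 : ∀ P, IsTy ρ P → φ P + φ (cjf ρ P) = 0)
    (h4 : ∀ P Q R U, IsTy ρ P → IsTy ρ Q → IsTy ρ R → IsTy ρ U → (∀ x, P x + Q x + R x + U x = 2) →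
      φ P + φ Q + φ R + φ U = 0) (s : Finset X) (hs : s ⊆ H) :
    φ (ty ρ H s) = φ (ty ρ H ∅) + ∑ x ∈ s, (φ (ty ρ H {x}) - φ (ty ρ H ∅)) := by
  induction s using Finset.induction_on with
  | empty => simp
  | insert x s hx ih =>
    have hsH : s ⊆ H := fun y hy => hs (Finset.mem_insert_of_mem hy)
    have hxH : x ∈ H := hs (Finset.mem_insert_self x s)
    rw [Finset.sum_insert hx]
    have e := h4 (ty ρ H (insert x s)) (ty ρ H ∅) (cjf ρ (ty ρ H s)) (cjf ρ (ty ρ H {x}))
      (ty_ty hρ hH _) (ty_ty hρ hH _) ((ty_ty hρ hH _).cj) ((ty_ty hρ hH _).cj) (by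
        intro y
        unfold ty cjf
        by_cases hy : y ∈ H
        · have h3 := (hH y).1 hy
          simp only [if_pos hy, if_neg h3, hρ, Finset.mem_insert, Finset.notMem_empty, if_false,
            Finset.mem_singleton]
          by_cases hyx : y = x
          · subst hyx
            simp [hx]
          · simp only [hyx, false_or, if_false]
            by_cases hys : y ∈ s
            · simp [hys]
            · simp [hys]
        · have h3 : ρ y ∈ H := by
            by_contra h5
            exact hy ((hH y).2 h5)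
          simp only [if_neg hy, if_pos h3, Finset.mem_insert, Finset.notMem_empty, if_false,
            Finset.mem_singleton]
          by_cases hyx : ρ y = x
          · rw [hyx]
            simp [hx]
          · simp only [hyx, false_or, if_false]
            by_cases hys : ρ y ∈ s
            · simp [hys]
            · simp [hys])
    have e1 := h2 _ (ty_ty hρ hH s)
    have e2 := h2 _ (ty_ty hρ hH {x})
    have e3 : φ (ty ρ H (insert x s)) = φ (ty ρ H s) + φ (ty ρ H {x}) - φ (ty ρ H ∅) := by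
      have e4 : φ (cjf ρ (ty ρ H s)) = -φ (ty ρ H s) := by
        rw [eq_neg_iff_add_eq_zero, add_comm]
        exact e1
      have e5 : φ (cjf ρ (ty ρ H {x})) = -φ (ty ρ H {x}) := by
        rw [eq_neg_iff_add_eq_zero, add_comm]
        exact e2
      rw [e4, e5] at e
      rw [eq_sub_iff_add_eq, ← sub_eq_zero, ← e]
      abel
    rw [e3, ih hsH]
    abel

/-- **The relations.** A function with values in an abelian group which vanishes on the basic sets vanishes on the multisets
of types with constant sum. -/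
theorem sum_zero [Finite X] [Nonempty X] {Q : Type*} [AddCommGroup Q] (hρ : ∀ x, ρ (ρ x) = x) (hne : ∀ x, ρ x ≠ x)
    (φ : (X → ℕ) → Q) (h2 : ∀ P, IsTy ρ P → φ P + φ (cjf ρ P) = 0)
    (h4 : ∀ P Q R U, IsTy ρ P → IsTy ρ Q → IsTy ρ R → IsTy ρ U → (∀ x, P x + Q x + R x + U x = 2) →
      φ P + φ Q + φ R + φ U = 0) (S : Multiset (X → ℕ)) (hS : ∀ f ∈ S, IsTy ρ f) (k : ℕ)
    (hk : ∀ x, (S.map (fun f => f x)).sum = k) : (S.map φ).sum = 0 := by
  classical
  have : Fintype X := Fintype.ofFinite X
  obtain ⟨e, he⟩ : ∃ e : X → ℕ, Function.Injective e :=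
    ⟨fun x => (Fintype.equivFin X x : ℕ), fun x y h => (Fintype.equivFin X).injective (Fin.ext h)⟩
  obtain ⟨H, hHm⟩ : ∃ H : Finset X, ∀ x, x ∈ H ↔ e x < e (ρ x) :=
    ⟨Finset.univ.filter (fun x => e x < e (ρ x)), fun x => by simp⟩
  have hH : ∀ x, x ∈ H ↔ ρ x ∉ H := by
    intro x
    rw [hHm, hHm, hρ]
    have h : e x ≠ e (ρ x) := fun h => hne x (he h).symm
    omega
  have hform : ∀ f, IsTy ρ f → φ f = φ (ty ρ H ∅) + ∑ x ∈ H, f x • (φ (ty ρ H {x}) - φ (ty ρ H ∅)) := by
    intro f hf
    have h := phi_ty hρ hH φ h2 h4 (H.filter (fun x => f x = 1)) (Finset.filter_subset _ _)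
    rw [← ty_eq hH hf] at h
    rw [h, Finset.sum_filter]
    congr 1
    refine Finset.sum_congr rfl fun x _ => ?_
    have h1 := hf x
    by_cases hx : f x = 1
    · rw [if_pos hx, hx, one_smul]
    · have h0 : f x = 0 := by omega
      rw [if_neg hx, h0, zero_smul]
  have hfull : φ (ty ρ H ∅) + (φ (ty ρ H ∅) + ∑ x ∈ H, (φ (ty ρ H {x}) - φ (ty ρ H ∅))) = 0 := by
    have h := phi_ty hρ hH φ h2 h4 H (Finset.Subset.refl H)
    rw [← h]
    have e1 : ty ρ H H = cjf ρ (ty ρ H ∅) := by
      funext x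
      unfold ty cjf
      by_cases hx : x ∈ H
      · have h3 := (hH x).1 hx
        simp [hx, h3]
      · have h3 : ρ x ∈ H := by
          by_contra h5
          exact hx ((hH x).2 h5)
        simp [hx, h3]
    rw [e1]
    exact h2 _ (ty_ty hρ hH ∅)
  have hcard : S.card = 2 * k := by
    obtain ⟨x⟩ := ‹Nonempty X›
    have h1 : (S.map (fun f => f x + f (ρ x))).sum = k + k := by
      rw [Multiset.sum_map_add, hk, hk]
    have h3 : S.map (fun f => f x + f (ρ x)) = S.map (fun _ => 1) :=
      Multiset.map_congr rfl fun f hf => hS f hf x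
    rw [h3] at h1
    simp at h1
    omega
  have h5 : (S.map φ).sum = (S.map (fun f => φ (ty ρ H ∅) + ∑ x ∈ H, f x • (φ (ty ρ H {x}) - φ (ty ρ H ∅)))).sum := by
    rw [Multiset.map_congr rfl fun f hf => hform f (hS f hf)]
  have h6 : ∀ d : X → Q, (S.map (fun f : X → ℕ => ∑ x ∈ H, f x • d x)).sum = ∑ x ∈ H, k • d x := by
    intro d
    have h7 : ∀ T : Multiset (X → ℕ), (T.map (fun f : X → ℕ => ∑ x ∈ H, f x • d x)).sum =
        ∑ x ∈ H, (T.map (fun f => f x)).sum • d x := by
      intro T
      induction T using Multiset.induction_on with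
      | empty => simp
      | cons a T ih =>
        rw [Multiset.map_cons, Multiset.sum_cons, ih, ← Finset.sum_add_distrib]
        refine Finset.sum_congr rfl fun x _ => ?_
        rw [Multiset.map_cons, Multiset.sum_cons, add_smul]
    rw [h7]
    exact Finset.sum_congr rfl fun x _ => by rw [hk]
  rw [h5, Multiset.sum_map_add, h6, Multiset.map_const', Multiset.sum_replicate, hcard]
  rw [← Finset.smul_sum, mul_comm, mul_smul, ← smul_add, two_smul, add_assoc, hfull, smul_zero]

/-! ## The decomposition -/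

open Classical in
/-- The counting function. -/
private def cnt : Multiset (X → ℕ) →+ ((X → ℕ) → ℤ) where
  toFun S f := (S.count f : ℤ)
  map_zero' := by
    funext f
    simp
  map_add' S T := by
    funext f
    simp

private theorem cnt_inj {S T : Multiset (X → ℕ)} (h : cnt S = cnt T) : S = T := by
  classical
  refine Multiset.ext.2 fun f => ?_
  have h1 := congrFun h f
  have h2 : ((S.count f : ℕ) : ℤ) = ((T.count f : ℕ) : ℤ) := by
    unfold cnt at h1
    simp only [AddMonoidHom.coe_mk, ZeroHom.coe_mk] at h1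
    exact h1
  exact_mod_cast h2

private theorem cnt_map (S : Multiset (X → ℕ)) : cnt S = (S.map (fun f => cnt {f})).sum := by
  induction S using Multiset.induction_on with
  | empty => simp
  | cons a S ih =>
    rw [Multiset.map_cons, Multiset.sum_cons, ← ih, ← map_add, Multiset.singleton_add]

/-- **THEOREM (F).** -/
theorem comb [Finite X] [Nonempty X] (ρ : X → X) (hρ : ∀ x, ρ (ρ x) = x) (hne : ∀ x, ρ x ≠ x)
    (S : Multiset (X → ℕ)) (hS : ∀ f ∈ S, IsTy ρ f) (k : ℕ) (hk : ∀ x, (S.map (fun f => f x)).sum = k) :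
    ∃ (A : Multiset (X → ℕ)) (R : Multiset (Multiset (X → ℕ))), (∀ f ∈ A, IsTy ρ f) ∧ (∀ m ∈ R, Bas ρ m) ∧
      S + A + A.map (cjf ρ) = R.sum := by
  classical
  set W : AddSubgroup ((X → ℕ) → ℤ) := AddSubgroup.closure {v | ∃ m, Bas ρ m ∧ v = cnt m} with hW
  have key : (QuotientAddGroup.mk' W) (cnt S) = 0 := by
    rw [cnt_map, map_multiset_sum, Multiset.map_map]
    refine sum_zero hρ hne (fun f => (QuotientAddGroup.mk' W) (cnt {f})) (fun P hP => ?_)
      (fun P Q R U hP hQ hR hU hs => ?_) S hS k hk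
    · rw [← map_add, ← map_add]
      have h1 : cnt ({P} + {cjf ρ P} : Multiset (X → ℕ)) ∈ W :=
        AddSubgroup.subset_closure ⟨_, Or.inl ⟨P, hP, rfl⟩, by simp⟩
      exact (QuotientAddGroup.eq_zero_iff _).2 h1
    · rw [← map_add, ← map_add, ← map_add, ← map_add, ← map_add, ← map_add]
      have h1 : cnt ({P} + {Q} + {R} + {U} : Multiset (X → ℕ)) ∈ W :=
        AddSubgroup.subset_closure ⟨_, Or.inr ⟨P, Q, R, U, hP, hQ, hR, hU, hs, rfl⟩, by simp⟩
      exact (QuotientAddGroup.eq_zero_iff _).2 h1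
  have hmem : cnt S ∈ W := (QuotientAddGroup.eq_zero_iff _).1 key
  have hex : ∀ v ∈ W, ∃ B C : Multiset (Multiset (X → ℕ)), (∀ m ∈ B, Bas ρ m) ∧ (∀ m ∈ C, Bas ρ m) ∧
      v + cnt C.sum = cnt B.sum := by
    intro v hv
    rw [hW] at hv
    induction hv using AddSubgroup.closure_induction with
    | mem v hv =>
      obtain ⟨m, hm, rfl⟩ := hv
      exact ⟨{m}, 0, by simpa using hm, by simp, by simp⟩
    | zero => exact ⟨0, 0, by simp, by simp, by simp⟩
    | add v w _ _ ihv ihw =>
      obtain ⟨B, C, hB, hC, h1⟩ := ihv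
      obtain ⟨B', C', hB', hC', h2⟩ := ihw
      refine ⟨B + B', C + C', fun m hm => ?_, fun m hm => ?_, ?_⟩
      · rcases Multiset.mem_add.1 hm with h | h
        · exact hB m h
        · exact hB' m h
      · rcases Multiset.mem_add.1 hm with h | h
        · exact hC m h
        · exact hC' m h
      · rw [Multiset.sum_add, Multiset.sum_add, map_add, map_add, ← h1, ← h2]
        abel
    | neg v _ ih =>
      obtain ⟨B, C, hB, hC, h1⟩ := ih
      refine ⟨C, B, hC, hB, ?_⟩
      rw [← h1]
      abel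
  obtain ⟨B, C, hB, hC, h1⟩ := hex _ hmem
  have h2 : S + C.sum = B.sum := by
    apply cnt_inj
    rw [map_add, h1]
  have hsum : ∀ D : Multiset (Multiset (X → ℕ)), D.sum.map (cjf ρ) = (D.map (Multiset.map (cjf ρ))).sum := by
    intro D
    induction D using Multiset.induction_on with
    | empty => simp
    | cons a D ih => rw [Multiset.sum_cons, Multiset.map_add, ih, Multiset.map_cons, Multiset.sum_cons]
  have hty : ∀ D : Multiset (Multiset (X → ℕ)), (∀ m ∈ D, Bas ρ m) → ∀ f ∈ D.sum, IsTy ρ f := by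
    intro D
    induction D using Multiset.induction_on with
    | empty => simp
    | cons a D ih =>
      intro h f hf
      rw [Multiset.sum_cons] at hf
      rcases Multiset.mem_add.1 hf with h3 | h3
      · exact (h a (Multiset.mem_cons_self a D)).ty f h3
      · exact ih (fun m hm => h m (Multiset.mem_cons_of_mem hm)) f h3
  refine ⟨C.sum, B + C.map (Multiset.map (cjf ρ)), hty C hC, fun m hm => ?_, ?_⟩
  · rcases Multiset.mem_add.1 hm with h | h
    · exact hB m h
    · obtain ⟨m', hm', rfl⟩ := Multiset.mem_map.1 h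
      exact (hC m' hm').cj
  · rw [h2, hsum, Multiset.sum_add]

/-! ## Families -/

private theorem pick {ι α : Type*} (F : ι → α) (m : Multiset α) : ∀ s : Finset ι, m ≤ s.val.map F →
    ∃ t : Finset ι, t ⊆ s ∧ t.val.map F = m := by
  classical
  induction m using Multiset.induction_on with
  | empty => exact fun s _ => ⟨∅, Finset.empty_subset s, by simp⟩
  | cons a m ih =>
    intro s h
    have ha : a ∈ s.val.map F := Multiset.mem_of_le h (Multiset.mem_cons_self a m)
    obtain ⟨i, hi, rfl⟩ := Multiset.mem_map.1 ha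
    have hi' : i ∈ s := hi
    have e : s.val.map F = F i ::ₘ (s.erase i).val.map F := by
      rw [← Multiset.map_cons, Finset.erase_val, Multiset.cons_erase hi]
    rw [e] at h
    obtain ⟨t, ht, rfl⟩ := ih (s.erase i) ((Multiset.cons_le_cons_iff _).1 h)
    have hit : i ∉ t := fun h3 => Finset.notMem_erase i s (ht h3)
    refine ⟨insert i t, ?_, ?_⟩
    · intro x hx
      rcases Finset.mem_insert.1 hx with rfl | hx
      · exact hi'
      · exact Finset.mem_of_mem_erase (ht hx)
    · rw [Finset.insert_val_of_notMem hit, Multiset.map_cons]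

/-- A decomposition of the multiset of the values of a family gives a partition of the index set. -/
theorem part {ι α : Type*} (F : ι → α) (R : Multiset (Multiset α)) : ∀ s : Finset ι, s.val.map F = R.sum →
    ∃ P : List (Finset ι), P.Pairwise Disjoint ∧ (∀ x, x ∈ s ↔ ∃ p ∈ P, x ∈ p) ∧
      ∀ p ∈ P, p.val.map F ∈ R := by
  classical
  induction R using Multiset.induction_on with
  | empty =>
    intro s h
    have hs : s = ∅ := by
      rw [Multiset.sum_zero, Multiset.map_eq_zero, Finset.val_eq_zero] at h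
      exact h
    exact ⟨[], List.Pairwise.nil, fun x => by simp [hs], by simp⟩
  | cons m R ih =>
    intro s h
    rw [Multiset.sum_cons] at h
    obtain ⟨t, ht, htm⟩ := pick F m s (by rw [h]; exact Multiset.le_add_right m R.sum)
    have h1 : (s \ t).val.map F = R.sum := by
      have h2 : s.val.map F = t.val.map F + (s \ t).val.map F := by
        rw [← Multiset.map_add, Finset.sdiff_val, add_tsub_cancel_of_le (Finset.val_le_iff.2 ht)]
      rw [h, htm] at h2
      exact (add_left_cancel h2).symm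
    obtain ⟨P, hP1, hP2, hP3⟩ := ih (s \ t) h1
    refine ⟨t :: P, List.pairwise_cons.2 ⟨fun p hp => ?_, hP1⟩, fun x => ?_, fun p hp => ?_⟩
    · refine Finset.disjoint_left.2 fun x hx hxp => ?_
      exact (Finset.mem_sdiff.1 ((hP2 x).2 ⟨p, hp, hxp⟩)).2 hx
    · constructor
      · intro hx
        by_cases hxt : x ∈ t
        · exact ⟨t, List.mem_cons_self, hxt⟩
        · obtain ⟨p, hp, hxp⟩ := (hP2 x).1 (Finset.mem_sdiff.2 ⟨hx, hxt⟩)
          exact ⟨p, List.mem_cons_of_mem t hp, hxp⟩
      · rintro ⟨p, hp, hxp⟩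
        rcases List.mem_cons.1 hp with rfl | hp
        · exact ht hxp
        · exact (Finset.mem_sdiff.1 ((hP2 x).2 ⟨p, hp, hxp⟩)).1
    · rcases List.mem_cons.1 hp with rfl | hp
      · rw [htm]
        exact Multiset.mem_cons_self m R
      · exact Multiset.mem_cons_of_mem (hP3 p hp)

/-- The family `F` together with the pairs `G j`, `conj (G j)`. -/
def Fam {ι : Type*} {N : ℕ} (ρ : X → X) (F : ι → X → ℕ) (G : Fin N → X → ℕ) : ι ⊕ (Fin N ⊕ Fin N) → X → ℕ
  | Sum.inl i => F i
  | Sum.inr (Sum.inl j) => G j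
  | Sum.inr (Sum.inr j) => cjf ρ (G j)

/-- **THEOREM (F) for families.** `F` a finite family of types with constant sum: after adding pairs `G j`, `conj (G j)` the index
set is a disjoint union of `2`-sets and `4`-sets. -/
theorem combF [Finite X] [Nonempty X] (ρ : X → X) (hρ : ∀ x, ρ (ρ x) = x) (hne : ∀ x, ρ x ≠ x) {ι : Type*}
    [Fintype ι] (F : ι → X → ℕ) (hF : ∀ i, IsTy ρ (F i)) (k : ℕ) (hk : ∀ x, ∑ i, F i x = k) :
    ∃ (N : ℕ) (G : Fin N → X → ℕ), (∀ j, IsTy ρ (G j)) ∧ ∃ P : List (Finset (ι ⊕ (Fin N ⊕ Fin N))),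
      P.Pairwise Disjoint ∧ (∀ x, ∃ p ∈ P, x ∈ p) ∧ ∀ p ∈ P, Bas ρ (p.val.map (Fam ρ F G)) := by
  classical
  obtain ⟨A, R, hA, hR, h⟩ := comb ρ hρ hne ((Finset.univ : Finset ι).val.map F)
    (fun f hf => by
      obtain ⟨i, -, rfl⟩ := Multiset.mem_map.1 hf
      exact hF i) k (fun x => by
      rw [Multiset.map_map]
      exact hk x)
  obtain ⟨L, rfl⟩ := Quotient.exists_rep A
  set G : Fin L.length → X → ℕ := fun j => L.get j with hG
  have hGL : (Finset.univ : Finset (Fin L.length)).val.map G = (L : Multiset (X → ℕ)) := by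
    have h1 : (Finset.univ : Finset (Fin L.length)).val = (List.finRange L.length : Multiset (Fin L.length)) := rfl
    rw [h1, Multiset.map_coe, hG, ← List.ofFn_eq_map, List.ofFn_get]
  have hfam : (Finset.univ : Finset (ι ⊕ (Fin L.length ⊕ Fin L.length))).val.map (Fam ρ F G) = R.sum := by
    have e1 : (Finset.univ : Finset (ι ⊕ (Fin L.length ⊕ Fin L.length))) =
        Finset.univ.disjSum (Finset.univ.disjSum Finset.univ) := rfl
    have e2 : ∀ {α β γ : Type _} (s : Multiset α) (u : Multiset β) (f : α ⊕ β → γ),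
        (s.disjSum u).map f = s.map (fun a => f (Sum.inl a)) + u.map (fun b => f (Sum.inr b)) := by
      intro α β γ s u f
      rw [Multiset.disjSum, Multiset.map_add, Multiset.map_map, Multiset.map_map]
      rfl
    have e3 : (L : Multiset (X → ℕ)).map (cjf ρ) =
        (Finset.univ : Finset (Fin L.length)).val.map (fun j => cjf ρ (G j)) := by
      rw [← hGL, Multiset.map_map]
      rfl
    have h' : (Finset.univ : Finset ι).val.map F + (L : Multiset (X → ℕ)) + (L : Multiset (X → ℕ)).map (cjf ρ) =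
        R.sum := h
    rw [← h', e1, Finset.val_disjSum, e2, Finset.val_disjSum, Multiset.disjSum, Multiset.map_add, Multiset.map_map,
      Multiset.map_map, e3, ← hGL, add_assoc]
    rfl
  obtain ⟨P, hP1, hP2, hP3⟩ := part (Fam ρ F G) R Finset.univ hfam
  refine ⟨L.length, G, fun j => hA _ ?_, P, hP1, fun x => (hP2 x).1 (Finset.mem_univ x), fun p hp =>
    hR _ (hP3 p hp)⟩
  exact List.get_mem L j

end Comb
end HC
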