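import Mathlib

/-! PROJECT HC, part F (helper31): combinatorics of CM types.

`X` a finite set with a fixed point free involution `c`; a CM type is `F : X → Bool` with
`F (c x) = !F x`.  Every multiset `S` of CM types whose sum is constant becomes, after adding
pairs `F, conj F`, a sum of `2`-sets `{P, conj P}` and `4`-sets `{P, Q, R, U}` with
`P + Q + R + U = 2` (`comb`). -/

namespace HC
namespace Comb

set_option linter.unusedSectionVars false

variable {X : Type*} (c : X → X)

/-- CM types of a set with involution. -/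
abbrev Ty : Type _ := {F : X → Bool // ∀ x, F (c x) = !F x}

variable {c}

/-- The value `0` or `1` of a type. -/
def vl (F : Ty c) (x : X) : ℕ := (F.1 x).toNat

/-- The conjugate type. -/
def bar (F : Ty c) : Ty c := ⟨fun x => !F.1 x, fun x => by simp only [F.2 x]⟩

theorem bar_bar (F : Ty c) : bar (bar F) = F := Subtype.ext (funext fun x => by simp [bar])

theorem vl_bar (F : Ty c) (x : X) : vl (bar F) x + vl F x = 1 := by
  unfold vl bar
  cases h : F.1 x <;> simp [h]

theorem vl_c (F : Ty c) (x : X) : vl F (c x) + vl F x = 1 := by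
  unfold vl
  rw [F.2 x]
  cases F.1 x <;> simp

theorem ty_ext {F G : Ty c} (h : ∀ x, vl F x = vl G x) : F = G := by
  refine Subtype.ext (funext fun x => ?_)
  have := h x
  unfold vl at this
  cases h1 : F.1 x <;> cases h2 : G.1 x <;> simp_all

/-- The basic sets of types: `{P, conj P}` and `{P, Q, R, U}` with sum `2`. -/
def Good (r : Multiset (Ty c)) : Prop :=
  (∃ P, r = {P, bar P}) ∨
    ∃ P Q R U, r = {P, Q, R, U} ∧ ∀ x, vl P x + vl Q x + vl R x + vl U x = 2

theorem good_bar {r : Multiset (Ty c)} (h : Good r) : Good (r.map bar) := by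
  rcases h with ⟨P, rfl⟩ | ⟨P, Q, R, U, rfl, h⟩
  · exact Or.inl ⟨bar P, by simp⟩
  · refine Or.inr ⟨bar P, bar Q, bar R, bar U, by simp, fun x => ?_⟩
    have := h x
    have h1 := vl_bar P x
    have h2 := vl_bar Q x
    have h3 := vl_bar R x
    have h4 := vl_bar U x
    omega

noncomputable instance : DecidableEq (Ty c) := Classical.decEq _

/-- The class of a multiset in the free abelian group. -/
noncomputable def cl (S : Multiset (Ty c)) : Ty c →₀ ℤ :=
  (S.map (fun F => Finsupp.single F (1 : ℤ))).sum

theorem cl_add (S T : Multiset (Ty c)) : cl (S + T) = cl S + cl T := by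
  unfold cl
  rw [Multiset.map_add, Multiset.sum_add]

theorem cl_apply (S : Multiset (Ty c)) (F : Ty c) : cl S F = (S.count F : ℤ) := by
  unfold cl
  induction S using Multiset.induction_on with
  | empty => simp
  | cons a S ih =>
    rw [Multiset.map_cons, Multiset.sum_cons, Finsupp.add_apply, ih, Multiset.count_cons]
    by_cases h : F = a
    · subst h
      simp
      ring
    · rw [Finsupp.single_eq_of_ne h, if_neg h]
      simp

theorem cl_inj {S T : Multiset (Ty c)} (h : cl S = cl T) : S = T := by
  ext F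
  have := congrArg (fun f => f F) h
  simp only [cl_apply] at this
  exact_mod_cast this

/-- The subgroup generated by the good sets. -/
noncomputable def DD (c : X → X) : AddSubgroup (Ty c →₀ ℤ) :=
  AddSubgroup.closure {f | ∃ r : Multiset (Ty c), Good r ∧ f = cl r}

theorem mem_DD {f : Ty c →₀ ℤ} (hf : f ∈ DD c) :
    ∃ R₁ R₂ : Multiset (Multiset (Ty c)), (∀ r ∈ R₁, Good r) ∧ (∀ r ∈ R₂, Good r) ∧
      f + cl R₁.sum = cl R₂.sum := by
  unfold DD at hf
  induction hf using AddSubgroup.closure_induction with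
  | mem f hf =>
    obtain ⟨r, hr, rfl⟩ := hf
    exact ⟨0, {r}, by simp, by simpa using hr, by simp [cl]⟩
  | zero => exact ⟨0, 0, by simp, by simp, by simp⟩
  | add f g _ _ hf hg =>
    obtain ⟨R₁, R₂, h1, h2, h3⟩ := hf
    obtain ⟨S₁, S₂, g1, g2, g3⟩ := hg
    refine ⟨R₁ + S₁, R₂ + S₂, ?_, ?_, ?_⟩
    · intro r hr
      rcases Multiset.mem_add.1 hr with h | h
      exacts [h1 r h, g1 r h]
    · intro r hr
      rcases Multiset.mem_add.1 hr with h | h
      exacts [h2 r h, g2 r h]
    · rw [Multiset.sum_add, Multiset.sum_add, cl_add, cl_add, ← h3, ← g3]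
      abel
  | neg f _ hf =>
    obtain ⟨R₁, R₂, h1, h2, h3⟩ := hf
    refine ⟨R₂, R₁, h2, h1, ?_⟩
    rw [← h3]
    abel

theorem pair_mem (P : Ty c) : Finsupp.single P (1 : ℤ) + Finsupp.single (bar P) 1 ∈ DD c := by
  refine AddSubgroup.subset_closure ⟨{P, bar P}, Or.inl ⟨P, rfl⟩, ?_⟩
  simp [cl]

theorem four_mem (P Q R U : Ty c) (h : ∀ x, vl P x + vl Q x = vl R x + vl U x) :
    Finsupp.single P (1 : ℤ) + Finsupp.single Q 1 - Finsupp.single R 1 - Finsupp.single U 1
      ∈ DD c := by
  have h1 : cl ({P, Q, bar R, bar U} : Multiset (Ty c)) ∈ DD c := by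
    refine AddSubgroup.subset_closure ⟨_, Or.inr ⟨P, Q, bar R, bar U, rfl, fun x => ?_⟩, rfl⟩
    have := h x
    have h3 := vl_bar R x
    have h4 := vl_bar U x
    omega
  have h2 := (DD c).sub_mem ((DD c).sub_mem h1 (pair_mem R)) (pair_mem U)
  convert h2 using 1
  simp only [cl, Multiset.insert_eq_cons, Multiset.map_cons, Multiset.map_singleton,
    Multiset.sum_cons, Multiset.sum_singleton]
  abel

section half

variable [Fintype X] [DecidableEq X]

/-- The type which is `1` on `T` (a subset of the half system `H`). -/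
def tyT (hc : ∀ x, c (c x) = x) (H : Finset X) (hH : ∀ x, x ∈ H ↔ c x ∉ H) (T : Finset X) : Ty c :=
  ⟨fun x => if x ∈ H then decide (x ∈ T) else !decide (c x ∈ T), fun x => by
    by_cases h : x ∈ H
    · have h1 : c x ∉ H := (hH x).1 h
      simp only [h, h1, if_true, if_false, hc]
    · have h1 : c x ∈ H := by
        by_contra h2
        exact h ((hH x).2 h2)
      simp only [h, h1, if_true, if_false, Bool.not_not]⟩

variable (hc : ∀ x, c (c x) = x) (H : Finset X) (hH : ∀ x, x ∈ H ↔ c x ∉ H)

include hc hH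

theorem vl_tyT (T : Finset X) (x : X) (hx : x ∈ H) :
    vl (tyT hc H hH T) x = if x ∈ T then 1 else 0 := by
  unfold vl tyT
  simp only [hx, if_true]
  by_cases h : x ∈ T <;> simp [h]

/-- Values on the half system are enough. -/
theorem eq_of_half {F G : Ty c} (h : ∀ x ∈ H, vl F x = vl G x) (x : X) : vl F x = vl G x := by
  by_cases hx : x ∈ H
  · exact h x hx
  · have h1 : c x ∈ H := by
      by_contra h2
      exact hx ((hH x).2 h2)
    have h3 := h _ h1
    have h4 := vl_c F x
    have h5 := vl_c G x
    omega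

theorem sum_of_half {P Q R U : Ty c} (h : ∀ x ∈ H, vl P x + vl Q x = vl R x + vl U x) (x : X) :
    vl P x + vl Q x = vl R x + vl U x := by
  by_cases hx : x ∈ H
  · exact h x hx
  · have h1 : c x ∈ H := by
      by_contra h2
      exact hx ((hH x).2 h2)
    have h3 := h _ h1
    have h4 := vl_c P x
    have h5 := vl_c Q x
    have h6 := vl_c R x
    have h7 := vl_c U x
    omega

/-- The class `[T]`. -/
noncomputable def cT (T : Finset X) : Ty c →₀ ℤ := Finsupp.single (tyT hc H hH T) 1

theorem cT_insert (T : Finset X) (a : X) (ha : a ∉ T) (haH : a ∈ H) :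
    cT hc H hH (insert a T) - cT hc H hH T - (cT hc H hH {a} - cT hc H hH ∅) ∈ DD c := by
  have h := four_mem (tyT hc H hH (insert a T)) (tyT hc H hH ∅) (tyT hc H hH T)
    (tyT hc H hH {a}) (sum_of_half hc H hH fun x hx => by
      rw [vl_tyT _ _ _ _ _ hx, vl_tyT _ _ _ _ _ hx, vl_tyT _ _ _ _ _ hx, vl_tyT _ _ _ _ _ hx]
      by_cases h1 : x = a
      · subst h1
        simp [ha]
      · simp [h1])
  convert h using 1
  unfold cT
  abel

theorem cT_mem (T : Finset X) (hT : T ⊆ H) :
    cT hc H hH T - cT hc H hH ∅ - ∑ a ∈ T, (cT hc H hH {a} - cT hc H hH ∅) ∈ DD c := by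
  induction T using Finset.induction_on with
  | empty => simp [(DD c).zero_mem]
  | insert a T ha ih =>
    have h1 := ih (fun x hx => hT (Finset.mem_insert_of_mem hx))
    have h2 := cT_insert hc H hH T a ha (hT (Finset.mem_insert_self a T))
    rw [Finset.sum_insert ha]
    convert (DD c).add_mem h1 h2 using 1
    abel

/-- The type given by its values on `H`. -/
theorem eq_tyT (F : Ty c) : F = tyT hc H hH (H.filter fun x => F.1 x = true) := by
  refine ty_ext (eq_of_half hc H hH fun x hx => ?_)
  rw [vl_tyT _ _ _ _ _ hx]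
  unfold vl
  cases h : F.1 x <;> simp [h, hx]

theorem single_mem (F : Ty c) :
    Finsupp.single F (1 : ℤ) - cT hc H hH ∅ -
      ∑ a ∈ H, (vl F a : ℤ) • (cT hc H hH {a} - cT hc H hH ∅) ∈ DD c := by
  have h := cT_mem hc H hH (H.filter fun x => F.1 x = true) (Finset.filter_subset _ _)
  have h1 : cT hc H hH (H.filter fun x => F.1 x = true) = Finsupp.single F 1 := by
    unfold cT
    rw [← eq_tyT]
  rw [h1, Finset.sum_filter] at h
  convert h using 2
  refine Finset.sum_congr rfl fun a _ => ?_
  unfold vl
  cases h : F.1 a <;> simp [h]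

theorem all_mem :
    2 • cT hc H hH ∅ + ∑ a ∈ H, (cT hc H hH {a} - cT hc H hH ∅) ∈ DD c := by
  have h := cT_mem hc H hH H (Finset.Subset.refl _)
  have h1 : tyT hc H hH H = bar (tyT hc H hH ∅) := by
    refine ty_ext (eq_of_half hc H hH fun x hx => ?_)
    have h2 := vl_bar (tyT hc H hH ∅) x
    rw [vl_tyT _ _ _ _ _ hx] at h2
    rw [vl_tyT _ _ _ _ _ hx]
    simp only [hx, if_true, Finset.notMem_empty, if_false] at h2 ⊢
    omega
  have h2 : cT hc H hH H + cT hc H hH ∅ ∈ DD c := by
    have := pair_mem (tyT hc H hH ∅)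
    rw [← h1] at this
    unfold cT
    rwa [add_comm]
  convert (DD c).sub_mem h2 h using 1
  abel

/-- A balanced multiset is in the subgroup generated by the good sets. -/
theorem cl_mem (S : Multiset (Ty c)) (k : ℕ) (hS : ∀ x, (S.map fun F => vl F x).sum = k)
    (hne : H.Nonempty) : cl S ∈ DD c := by
  have h1 : ∀ S : Multiset (Ty c), cl S - Multiset.card S • cT hc H hH ∅ -
      ∑ a ∈ H, (((S.map fun F => vl F a).sum : ℕ) : ℤ) • (cT hc H hH {a} - cT hc H hH ∅) ∈ DD c := by
    intro S
    induction S using Multiset.induction_on with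
    | empty => simp [cl, (DD c).zero_mem]
    | cons F S ih =>
      have h2 := single_mem hc H hH F
      convert (DD c).add_mem h2 ih using 1
      have h3 : ∑ a ∈ H, ((((F ::ₘ S).map fun F => vl F a).sum : ℕ) : ℤ) •
          (cT hc H hH {a} - cT hc H hH ∅) =
          ∑ a ∈ H, (vl F a : ℤ) • (cT hc H hH {a} - cT hc H hH ∅) +
          ∑ a ∈ H, (((S.map fun F => vl F a).sum : ℕ) : ℤ) •
            (cT hc H hH {a} - cT hc H hH ∅) := by
        rw [← Finset.sum_add_distrib]
        refine Finset.sum_congr rfl fun a _ => ?_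
        rw [Multiset.map_cons, Multiset.sum_cons, Nat.cast_add, add_smul]
      rw [h3]
      unfold cl
      rw [Multiset.map_cons, Multiset.sum_cons, Multiset.card_cons, succ_nsmul]
      abel
  obtain ⟨x, hx⟩ := hne
  have hcard : Multiset.card S = 2 * k := by
    have h2 := hS x
    have h3 := hS (c x)
    have h4 : ∀ S : Multiset (Ty c), (S.map fun F => vl F x).sum + (S.map fun F => vl F (c x)).sum =
        Multiset.card S := by
      intro S
      induction S using Multiset.induction_on with
      | empty => simp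
      | cons F S ih =>
        have := vl_c F x
        rw [Multiset.map_cons, Multiset.sum_cons, Multiset.map_cons, Multiset.sum_cons,
          Multiset.card_cons]
        omega
    have := h4 S
    omega
  have h5 := h1 S
  simp only [hS] at h5
  rw [hcard, ← Finset.smul_sum] at h5
  have h6 := (DD c).nsmul_mem (all_mem hc H hH) k
  convert (DD c).add_mem h5 h6 using 1
  rw [smul_add, ← natCast_zsmul, ← natCast_zsmul, ← natCast_zsmul, smul_smul, ← natCast_zsmul]
  push_cast
  module

end half

/-- **The combinatorics of CM types.** -/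
theorem comb [Fintype X] (hc : ∀ x, c (c x) = x) (hf : ∀ x, c x ≠ x) (x₀ : X)
    (S : Multiset (Ty c)) (k : ℕ) (hS : ∀ x, (S.map fun F => vl F x).sum = k) :
    ∃ (A : Multiset (Ty c)) (R : Multiset (Multiset (Ty c))), (∀ r ∈ R, Good r) ∧
      S + (A + A.map bar) = R.sum := by
  classical
  -- a half system
  obtain ⟨H, hH⟩ : ∃ H : Finset X, ∀ x, x ∈ H ↔ c x ∉ H := by
    by_cases hne : Nonempty (Ty c)
    · obtain ⟨F⟩ := hne
      refine ⟨Finset.univ.filter fun x => F.1 x = true, fun x => ?_⟩
      simp only [Finset.mem_filter, Finset.mem_univ, true_and, F.2 x]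
      cases F.1 x <;> simp
    · -- choose one element of each orbit, by a linear order
      let e := Fintype.equivFin X
      refine ⟨Finset.univ.filter fun x => e x < e (c x), fun x => ?_⟩
      simp only [Finset.mem_filter, Finset.mem_univ, true_and, hc, not_lt]
      constructor
      · exact fun h => h.le
      · intro h
        refine lt_of_le_of_ne h fun h1 => hf x (e.injective h1).symm
  have hne : H.Nonempty := by
    by_cases h : x₀ ∈ H
    · exact ⟨x₀, h⟩
    · refine ⟨c x₀, ?_⟩
      by_contra h2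
      exact h ((hH x₀).2 h2)
  obtain ⟨R₁, R₂, h1, h2, h3⟩ := mem_DD (cl_mem hc H hH S k hS hne)
  rw [← cl_add] at h3
  have h4 := cl_inj h3
  refine ⟨R₁.sum, R₂ + R₁.map (Multiset.map bar), ?_, ?_⟩
  · intro r hr
    rcases Multiset.mem_add.1 hr with h | h
    · exact h2 r h
    · obtain ⟨r', hr', rfl⟩ := Multiset.mem_map.1 h
      exact good_bar (h1 r' hr')
  · rw [Multiset.sum_add, ← h4, ← add_assoc]
    congr 1
    exact map_multiset_sum (Multiset.mapAddMonoidHom bar) R₁

end Comb
end HC
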