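import Mathlib

/-!
# PROJECT HC: the Hodge conjecture for abelian varieties of CM type -- definitions

* `AV`: a complex abelian variety `V / L` (a complex torus with a Riemann form).
* `Hlg T m`: the homology group `H_m(T, ℂ)`; a class `c` is given by the numbers
  `c (a₁, …, a_m) = ∫_c a₁ ∧ … ∧ a_m`, where the `a_i : V → ℂ` are real linear
  (translation invariant 1-forms with complex values).
* `Alg T m c`: `c` is a `ℂ`-linear combination of classes of algebraic cycles of `T`. It is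
  generated by the images of compact complex manifolds `D / Γ`, and by homomorphisms of abelian
  varieties, Pontryagin products, intersections with divisors.
* `IsHodge T m c`: `c` is rational and of type `(m/2, m/2)`.
* `IsCM T`: `T` is an abelian variety of CM type.
-/

set_option autoImplicit false

open MeasureTheory

noncomputable section

namespace HC

/-- A complex abelian variety `V / L`: `L` is a lattice in `V`, and there is a Riemann form. -/
structure AV where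
  /-- the tangent space -/
  V : Type
  [nacg : NormedAddCommGroup V]
  [nsp : NormedSpace ℂ V]
  [fd : FiniteDimensional ℂ V]
  /-- the lattice -/
  L : Submodule ℤ V
  [disc : DiscreteTopology L]
  [latt : IsZLattice ℝ L]
  pol : ∃ E : V →ₗ[ℝ] V →ₗ[ℝ] ℝ, (∀ u ∈ L, ∀ v ∈ L, ∃ n : ℤ, E u v = n) ∧
    (∀ u v, E u v = -E v u) ∧ (∀ u v, E (Complex.I • u) (Complex.I • v) = E u v) ∧
    ∀ v, v ≠ 0 → 0 < E (Complex.I • v) v

attribute [instance] AV.nacg AV.nsp AV.fd AV.disc AV.latt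

/-- `H_m(T, ℂ)`: `c (a₁, …, a_m) = ∫_c a₁ ∧ … ∧ a_m` for real linear `a_i : V → ℂ`. -/
abbrev Hlg (T : AV) (m : ℕ) : Type := (T.V →ₗ[ℝ] ℂ) [⋀^Fin m]→ₗ[ℂ] ℂ

/-- The pull back of 1-forms by a complex linear map. -/
def pull {V V' : Type} [AddCommGroup V] [Module ℂ V] [AddCommGroup V'] [Module ℂ V']
    (φ : V →ₗ[ℂ] V') : (V' →ₗ[ℝ] ℂ) →ₗ[ℂ] (V →ₗ[ℝ] ℂ) where
  toFun a := a ∘ₗ (φ.restrictScalars ℝ)
  map_add' _ _ := rfl
  map_smul' _ _ := rfl

/-- The image of a homology class under a homomorphism. -/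
def push {T T' : AV} {m : ℕ} (φ : T.V →ₗ[ℂ] T'.V) (c : Hlg T m) : Hlg T' m :=
  c.compLinearMap (pull φ)

/-- The Pontryagin product (the image of the product cycle under the addition of `T`). -/
def pont {T : AV} {m n : ℕ} (c : Hlg T m) (d : Hlg T n) : Hlg T (m + n) :=
  ((LinearMap.mul' ℂ ℂ).compAlternatingMap (c.domCoprod d)).domDomCongr finSumFinEquiv

/-- `∑_j p_j ∧ q_j` is the first Chern class of a (rational) divisor: it has rational values on
the lattice and is of type `(1,1)` (Lefschetz). -/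
def IsDiv (T : AV) {r : ℕ} (p q : Fin r → (T.V →ₗ[ℝ] ℂ)) : Prop :=
  (∀ u ∈ T.L, ∀ v ∈ T.L, ∃ x : ℚ, ∑ j, (p j u * q j v - p j v * q j u) = x) ∧
  ∀ u v : T.V, ∑ j, (p j (Complex.I • u) * q j (Complex.I • v) -
    p j (Complex.I • v) * q j (Complex.I • u)) = ∑ j, (p j u * q j v - p j v * q j u)

/-- The intersection (cap product) of a homology class with `∑_j p_j ∧ q_j`. -/
def cap {T : AV} {m r : ℕ} (p q : Fin r → (T.V →ₗ[ℝ] ℂ)) (c : Hlg T (m + 2)) : Hlg T m :=
  ∑ j, ((c.curryLeft (p j)).curryLeft (q j))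

/-- A compact complex manifold of dimension `k` of the form `D / Γ`: `D` is an open subset of
`ℂ^k` and the group `Γ` acts on `D` holomorphically, freely, properly discontinuously, with
compact quotient. -/
structure CMan (k : ℕ) where
  /-- the open set -/
  D : Set (Fin k → ℂ)
  /-- the group -/
  Γ : Type
  [grp : Group Γ]
  /-- the action -/
  act : Γ → (Fin k → ℂ) → (Fin k → ℂ)
  isOpen : IsOpen D
  maps : ∀ g, ∀ z ∈ D, act g z ∈ D
  one : ∀ z ∈ D, act 1 z = z
  mul : ∀ g h, ∀ z ∈ D, act (g * h) z = act g (act h z)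
  hol : ∀ g, DifferentiableOn ℂ (act g) D
  free : ∀ g, ∀ z ∈ D, act g z = z → g = 1
  disc : ∀ C ⊆ D, IsCompact C → {g | (act g '' C ∩ C).Nonempty}.Finite
  cpt : ∃ C ⊆ D, IsCompact C ∧ ∀ z ∈ D, ∃ g, act g z ∈ C

attribute [instance] CMan.grp

/-- The real basis `e₁, i e₁, e₂, i e₂, …` of `ℂ^k`, in this order (the complex orientation). -/
def frame (k : ℕ) (j : Fin (2 * k)) : Fin k → ℂ :=
  Pi.single ⟨j / 2, by omega⟩ (if j.1 % 2 = 0 then 1 else Complex.I)

/-- A weight: `∫_{D/Γ} f = ∫_D χ f` for `Γ`-invariant `f`. -/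
structure IsWeight {k : ℕ} (M : CMan k) (χ : (Fin k → ℂ) → ℝ) : Prop where
  cont : Continuous χ
  nonneg : ∀ z, 0 ≤ χ z
  cpt : HasCompactSupport χ
  supp : tsupport χ ⊆ M.D
  sum : ∀ z ∈ M.D, HasSum (fun g => χ (M.act g z)) 1

/-- `w : D → V` is holomorphic and defines a holomorphic map `D / Γ → V / L`. -/
structure IsMap {k : ℕ} (M : CMan k) (T : AV) (w : (Fin k → ℂ) → T.V) : Prop where
  hol : DifferentiableOn ℂ w M.D
  per : ∀ g, ∀ z ∈ M.D, w (M.act g z) - w z ∈ T.L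

/-- The homology classes of algebraic cycles, with complex coefficients. -/
inductive Alg : (T : AV) → (m : ℕ) → Hlg T m → Prop
  /-- the image of a compact complex manifold `D / Γ` under a holomorphic map
  `D / Γ → V / L`: `c (a₁, …, a_2k) = ∫_{D/Γ} w^*(a₁ ∧ … ∧ a_2k)` -/
  | geo {T : AV} {k : ℕ} (M : CMan k) (w : (Fin k → ℂ) → T.V) (hw : IsMap M T w)
      (χ : (Fin k → ℂ) → ℝ) (hχ : IsWeight M χ) (c : Hlg T (2 * k))
      (hc : ∀ a : Fin (2 * k) → (T.V →ₗ[ℝ] ℂ), c a =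
        ∫ z, (χ z : ℂ) * Matrix.det (Matrix.of fun i j => a i (fderiv ℂ w z (frame k j)))) :
      Alg T (2 * k) c
  /-- the image under a homomorphism of abelian varieties -/
  | push {T T' : AV} {m : ℕ} (φ : T.V →ₗ[ℂ] T'.V) (hφ : ∀ x ∈ T.L, φ x ∈ T'.L) {c : Hlg T m}
      (hc : Alg T m c) : Alg T' m (push φ c)
  /-- the Pontryagin product -/
  | pont {T : AV} {m n : ℕ} {c : Hlg T m} {d : Hlg T n} (hc : Alg T m c) (hd : Alg T n d) :
      Alg T (m + n) (pont c d)
  /-- the intersection with a divisor -/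
  | cap {T : AV} {m r : ℕ} (p q : Fin r → (T.V →ₗ[ℝ] ℂ)) (h : IsDiv T p q)
      {c : Hlg T (m + 2)} (hc : Alg T (m + 2) c) : Alg T m (cap p q c)
  /-- linear combinations -/
  | zero {T : AV} {m : ℕ} : Alg T m 0
  | add {T : AV} {m : ℕ} {c d : Hlg T m} (hc : Alg T m c) (hd : Alg T m d) : Alg T m (c + d)
  | smul {T : AV} {m : ℕ} (x : ℂ) {c : Hlg T m} (hc : Alg T m c) : Alg T m (x • c)

/-- `c` is a Hodge class: it has rational values on the rational 1-forms, and it is of type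
`(m/2, m/2)` (invariant under the multiplications by the complex numbers of absolute value 1). -/
def IsHodge (T : AV) (m : ℕ) (c : Hlg T m) : Prop :=
  (∀ a : Fin m → (T.V →ₗ[ℝ] ℂ), (∀ i, ∀ v ∈ T.L, ∃ x : ℚ, a i v = x) → ∃ x : ℚ, c a = x) ∧
  ∀ u : ℂ, ‖u‖ = 1 → push (u • LinearMap.id) c = c

/-- `Φ` is a CM type of the number field `E`. -/
def IsType {E : Type} [Field E] (Φ : Set (E →+* ℂ)) : Prop :=
  ∀ φ : E →+* ℂ, φ ∈ Φ ↔ NumberField.ComplexEmbedding.conjugate φ ∉ Φ

/-- `T` is an abelian variety of CM type: it is isogenous to a product of the abelian varieties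
`ℂ^Φ_i / Φ_i(O_i)`, `O_i` the ring of integers of a CM field `E_i`, `Φ_i` a CM type of `E_i`. -/
def IsCM (T : AV) : Prop :=
  ∃ (n : ℕ) (E : Fin n → Type) (_ : ∀ i, Field (E i)) (_ : ∀ i, NumberField (E i))
    (_ : ∀ i, NumberField.IsCMField (E i)) (Φ : ∀ i, Set (E i →+* ℂ)),
    (∀ i, IsType (Φ i)) ∧
    ∃ ψ : T.V ≃ₗ[ℂ] ((s : (i : Fin n) × Φ i) → ℂ), ∀ v ∈ T.L, ∃ y : ∀ i, E i,
      ∀ (i : Fin n) (φ : Φ i), ψ v ⟨i, φ⟩ = φ.1 (y i)

/-- THE THEOREM: the Hodge conjecture for abelian varieties of CM type. -/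
def HodgeCM : Prop :=
  ∀ (T : AV), IsCM T → ∀ (m : ℕ) (c : Hlg T m), IsHodge T m c → Alg T m c

end HC
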