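import Pool.Agent.Lib.HC.Comb

/-!
# PROJECT HC: the combinatorial half of the main reduction (helper39)

A property of finite families of types which is invariant under permutations, stable under concatenation and under the removal of a pair
`h, conj h`, and true for the pairs `a, conj a` and for four types with sum `2`, is true for all families with constant sum.
-/

set_option autoImplicit false

noncomputable section

namespace HC
namespace Comb

variable {X α : Type}

/-- **The reduction, for multisets.** -/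
theorem redM [Finite X] [Nonempty X] (ρ : X → X) (hρ : ∀ x, ρ (ρ x) = x) (hne : ∀ x, ρ x ≠ x)
    (ch : α → X → ℕ) (cj : α → α) (hch : ∀ a, IsTy ρ (ch a)) (hinj : Function.Injective ch)
    (hsur : ∀ f, IsTy ρ f → ∃ a, ch a = f) (hcj : ∀ a, ch (cj a) = cjf ρ (ch a))
    (Q : Multiset α → Prop) (Pn : Q 0)
    (P1 : ∀ L L' : Multiset α, Q L → Q L' → Q (L + L')) (P2 : ∀ (a : α) (L : Multiset α), Q (a ::ₘ cj a ::ₘ L) → Q L)
    (P3 : ∀ a, Q {a, cj a}) (P4 : ∀ a b c d, (∀ x, ch a x + ch b x + ch c x + ch d x = 2) → Q {a, b, c, d})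
    (L : Multiset α) (k : ℕ) (hk : ∀ x, (L.map (fun a => ch a x)).sum = k) : Q L := by
  classical
  rcases isEmpty_or_nonempty α with hα | hα
  · have : L = 0 := by
      induction L using Multiset.induction_on with
      | empty => rfl
      | cons a _ _ => exact hα.elim a
    rw [this]
    exact Pn
  have hg : ∀ f, IsTy ρ f → ch (Function.invFun ch f) = f := fun f hf => Function.invFun_eq (hsur f hf)
  have hg' : ∀ a, Function.invFun ch (ch a) = a := fun a => hinj (hg _ (hch a))
  have hgc : ∀ f, IsTy ρ f → Function.invFun ch (cjf ρ f) = cj (Function.invFun ch f) := by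
    intro f hf
    apply hinj
    rw [hg _ hf.cj, hcj, hg _ hf]
  obtain ⟨A, R, hA, hR, h⟩ := comb ρ hρ hne (L.map ch) (fun f hf => by
    obtain ⟨a, -, rfl⟩ := Multiset.mem_map.1 hf
    exact hch a) k (fun x => by
    rw [Multiset.map_map]
    exact hk x)
  -- the basic sets
  have hb : ∀ m, Bas ρ m → Q (m.map (Function.invFun ch)) := by
    rintro m (⟨P, hP, rfl⟩ | ⟨P, T, U, V, hP, hT, hU, hV, hs, rfl⟩)
    · have e : (({P, cjf ρ P} : Multiset (X → ℕ)).map (Function.invFun ch)) =
          {Function.invFun ch P, cj (Function.invFun ch P)} := by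
        rw [← hgc P hP]
        simp
      rw [e]
      exact P3 _
    · have e : (({P, T, U, V} : Multiset (X → ℕ)).map (Function.invFun ch)) =
          {Function.invFun ch P, Function.invFun ch T, Function.invFun ch U, Function.invFun ch V} := by
        simp
      rw [e]
      refine P4 _ _ _ _ fun x => ?_
      rw [hg _ hP, hg _ hT, hg _ hU, hg _ hV]
      exact hs x
  have hRs : ∀ R : Multiset (Multiset (X → ℕ)), (∀ m ∈ R, Bas ρ m) → Q (R.sum.map (Function.invFun ch)) := by
    intro R
    induction R using Multiset.induction_on with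
    | empty =>
      intro _
      rw [Multiset.sum_zero, Multiset.map_zero]
      exact Pn
    | cons m R ih =>
      intro h
      rw [Multiset.sum_cons, Multiset.map_add]
      exact P1 _ _ (hb m (h m (Multiset.mem_cons_self m R))) (ih fun m' hm' => h m' (Multiset.mem_cons_of_mem hm'))
  have h1 := hRs R hR
  rw [← h, Multiset.map_add, Multiset.map_add, Multiset.map_map, Multiset.map_map] at h1
  have e1 : L.map (Function.invFun ch ∘ ch) = L := by
    have e2 : (Function.invFun ch ∘ ch) = id := funext hg'
    rw [e2, Multiset.map_id]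
  rw [e1] at h1
  -- remove the pairs
  have hrem : ∀ (A : Multiset (X → ℕ)) (M : Multiset α), (∀ f ∈ A, IsTy ρ f) →
      Q (M + A.map (Function.invFun ch) + A.map (Function.invFun ch ∘ cjf ρ)) → Q M := by
    intro A
    induction A using Multiset.induction_on with
    | empty =>
      intro M _ hM
      rw [Multiset.map_zero, Multiset.map_zero, add_zero, add_zero] at hM
      exact hM
    | cons f A ih =>
      intro M hA hM
      refine ih M (fun f' hf' => hA f' (Multiset.mem_cons_of_mem hf')) ?_
      refine P2 (Function.invFun ch f) _ ?_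
      rw [← hgc f (hA f (Multiset.mem_cons_self f A))]
      have e : M + (f ::ₘ A).map (Function.invFun ch) + (f ::ₘ A).map (Function.invFun ch ∘ cjf ρ) =
          Function.invFun ch f ::ₘ Function.invFun ch (cjf ρ f) ::ₘ
            (M + A.map (Function.invFun ch) + A.map (Function.invFun ch ∘ cjf ρ)) := by
        rw [Multiset.map_cons, Multiset.map_cons, Function.comp_apply]
        simp only [Multiset.add_cons, Multiset.cons_add]
        rw [Multiset.cons_swap]
      rw [e] at hM
      exact hM
  exact hrem A L hA h1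

/-- **The reduction, for lists.** -/
theorem redL [Finite X] [Nonempty X] (ρ : X → X) (hρ : ∀ x, ρ (ρ x) = x) (hne : ∀ x, ρ x ≠ x)
    (ch : α → X → ℕ) (cj : α → α) (hch : ∀ a, IsTy ρ (ch a)) (hinj : Function.Injective ch)
    (hsur : ∀ f, IsTy ρ f → ∃ a, ch a = f) (hcj : ∀ a, ch (cj a) = cjf ρ (ch a))
    (P : List α → Prop) (P0 : ∀ L L' : List α, L.Perm L' → P L → P L') (Pn : P [])
    (P1 : ∀ L L' : List α, P L → P L' → P (L ++ L')) (P2 : ∀ (a : α) (L : List α), P (a :: cj a :: L) → P L)
    (P3 : ∀ a, P [a, cj a]) (P4 : ∀ a b c d, (∀ x, ch a x + ch b x + ch c x + ch d x = 2) → P [a, b, c, d])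
    (L : List α) (k : ℕ) (hk : ∀ x, (L.map (fun a => ch a x)).sum = k) : P L := by
  have key := redM ρ hρ hne ch cj hch hinj hsur hcj
    (fun M => Quotient.liftOn M P fun L L' h => propext ⟨P0 L L' h, P0 L' L h.symm⟩) Pn
    (fun M M' => by
      induction M using Quotient.inductionOn with | _ L
      induction M' using Quotient.inductionOn with | _ L'
      exact P1 L L')
    (fun a M => by
      induction M using Quotient.inductionOn with | _ L
      exact P2 a L) P3 P4 (L : Multiset α) k (fun x => by
      rw [Multiset.map_coe, Multiset.sum_coe]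
      exact hk x)
  exact key

private theorem cnt_fib {m : ℕ} (g : Fin m → α) (a : α) [DecidableEq α] :
    (List.ofFn g).count a = Nat.card {i // g i = a} := by
  have h1 : ((List.ofFn g : List α) : Multiset α) = (Finset.univ : Finset (Fin m)).val.map g := by
    have h2 : (Finset.univ : Finset (Fin m)).val = (List.finRange m : Multiset (Fin m)) := rfl
    rw [h2, Multiset.map_coe, List.ofFn_eq_map]
  rw [← Multiset.coe_count, h1, Multiset.count_map, Nat.card_eq_fintype_card, Fintype.card_subtype]
  change (Finset.univ.filter (fun i => a = g i)).card = _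
  congr 1
  ext i
  simp [eq_comm]

private theorem perm_ex {m : ℕ} (g h : Fin m → α) (e : (List.ofFn g).Perm (List.ofFn h)) :
    ∃ σ : Equiv.Perm (Fin m), h = g ∘ σ := by
  classical
  have h1 : ∀ a, Nonempty ({i // h i = a} ≃ {i // g i = a}) := by
    intro a
    refine Finite.card_eq.1 ?_
    rw [← cnt_fib, ← cnt_fib]
    exact (List.perm_iff_count.1 e a).symm
  refine ⟨Equiv.ofFiberEquiv (fun a => (h1 a).some), ?_⟩
  funext i
  exact (Equiv.ofFiberEquiv_map (fun a => (h1 a).some) i).symm

/-- **The reduction, for families.** -/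
theorem red [Finite X] [Nonempty X] (ρ : X → X) (hρ : ∀ x, ρ (ρ x) = x) (hne : ∀ x, ρ x ≠ x)
    (ch : α → X → ℕ) (cj : α → α) (hch : ∀ a, IsTy ρ (ch a)) (hinj : Function.Injective ch)
    (hsur : ∀ f, IsTy ρ f → ∃ a, ch a = f) (hcj : ∀ a, ch (cj a) = cjf ρ (ch a))
    (P : ∀ m : ℕ, (Fin m → α) → Prop)
    (P0 : ∀ (m : ℕ) (g : Fin m → α) (σ : Equiv.Perm (Fin m)), P m g → P m (g ∘ σ)) (Pn : P 0 Fin.elim0)
    (P1 : ∀ (m n : ℕ) (g : Fin m → α) (h : Fin n → α), P m g → P n h → P (m + n) (Fin.append g h))
    (P2 : ∀ (m : ℕ) (a : α) (g : Fin m → α), P (m + 2) (Fin.cons a (Fin.cons (cj a) g) : Fin (m + 2) → α) → P m g)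
    (P3 : ∀ a, P 2 ![a, cj a])
    (P4 : ∀ a b c d, (∀ x, ch a x + ch b x + ch c x + ch d x = 2) → P 4 ![a, b, c, d])
    (m : ℕ) (g : Fin m → α) (k : ℕ) (hk : ∀ x, ∑ i, ch (g i) x = k) : P m g := by
  -- transport along equality of lists
  have tr : ∀ (m n : ℕ) (g : Fin m → α) (h : Fin n → α), List.ofFn g = List.ofFn h → P m g → P n h := by
    intro m n g h he hP
    have h1 : m = n := by
      have := congrArg List.length he
      rwa [List.length_ofFn, List.length_ofFn] at this
    subst h1
    rw [← List.ofFn_injective he]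
    exact hP
  have key := redL ρ hρ hne ch cj hch hinj hsur hcj (fun L => P L.length L.get) ?_ ?_ ?_ ?_ ?_ ?_ (List.ofFn g) k ?_
  · exact tr _ _ _ _ (by rw [List.ofFn_get]) key
  · -- permutations
    intro L L' hLL' hP
    have hlen : L'.length = L.length := hLL'.length_eq.symm
    obtain ⟨g', hg'⟩ : ∃ g' : Fin L.length → α, List.ofFn g' = L' := by
      refine ⟨fun i => L'.get (Fin.cast hlen.symm i), ?_⟩
      refine List.ext_getElem (by rw [List.length_ofFn, hlen]) fun i h1 h2 => ?_
      simp
    obtain ⟨σ, hσ⟩ := perm_ex L.get g' (by rw [List.ofFn_get, hg']; exact hLL')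
    refine tr _ _ g' _ (by rw [hg', List.ofFn_get]) ?_
    rw [hσ]
    exact P0 _ _ σ hP
  · exact tr 0 _ Fin.elim0 _ (by simp) Pn
  · intro L L' h1 h2
    refine tr _ _ _ _ ?_ (P1 _ _ _ _ h1 h2)
    rw [List.ofFn_fin_append, List.ofFn_get, List.ofFn_get, List.ofFn_get]
  · intro a L h1
    refine P2 L.length a L.get (tr _ _ _ _ ?_ h1)
    rw [List.ofFn_get, List.ofFn_cons, List.ofFn_cons, List.ofFn_get]
  · intro a
    exact tr _ _ _ _ (by rw [List.ofFn_get]; simp [List.ofFn_succ]) (P3 a)
  · intro a b c d h1
    exact tr _ _ _ _ (by rw [List.ofFn_get]; simp [List.ofFn_succ]) (P4 a b c d h1)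
  · intro x
    rw [List.map_ofFn, List.sum_ofFn]
    exact hk x

end Comb
end HC
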