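import Pool.Agent.Lib.HC.Main
import Pool.Agent.Lib.HC.Z.P02
import Pool.Agent.Lib.HC.B.Main
import Pool.Agent.Lib.HC.D.Main
import Pool.Agent.Lib.HC.E.SE
import Pool.Agent.Lib.HC.F.Main
import Pool.Agent.Lib.HC.G.Main
import Pool.Agent.Lib.HC.P.App
import Pool.Agent.Lib.HC.P.P3
import Pool.Agent.Lib.HC.P.P4
import Pool.Agent.Lib.HC.H.KD
import Pool.Agent.Lib.HC.J.Main

/-!
# PROJECT HC: `HodgeCM` from part C and THEOREM T2 (helper96)
-/

set_option autoImplicit false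

noncomputable section

namespace HC

/-- The Hodge conjecture for abelian varieties of CM type, from `S_C` and THEOREM T2. -/
theorem hodgeCM_of (hC : S_C) (hT2 : CMT.J.T2) : HodgeCM := by
  have hG : S_G := tG tZ
  have hD : S_D := tD tZ tHom
  have hH : S_H := tH hT2
  have hP0 : S_P0 := tP0 hC tWdg
  have hP1 : S_P1 := pP1 hC tWdg tHom
  have hP2 : S_P2 := tP2 hC tWdg hG
  have hP3 : S_P3 := pP3 hC tWdg tHom hD hG hH hP0
  have hP4 : S_P4 := pP4 hC tHom hP0 hD hH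
  exact main tExp tPushH E.tE (pI hC tWdg tHom (tPF hP0 hP1 hP2 hP3 hP4)) (J.tJ hC)

end HC
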