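import Pool.Agent.Lib.HC.Fin
import Pool.Agent.Lib.HC.C.All

/-!
# PROJECT HC: `HodgeCM` from THEOREM T2 alone (helper96)
-/

set_option autoImplicit false

noncomputable section

namespace HC

/-- The Hodge conjecture for abelian varieties of CM type, from THEOREM T2. -/
theorem hodgeCM_T2 (hT2 : CMT.J.T2) : HodgeCM := hodgeCM_of tC hT2

end HC
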