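import Pool.Agent.Lib.HC.Defs

/-!
# PROJECT HC: interfaces (helper96)

Every part proves its statements `S_...`; `HC/Main.lean` derives `HodgeCM` from them.

* `CMF`: a Galois CM field `K`, `[K:ℚ] > 2`, with an embedding `τ : K → ℂ`; `c` is the complex
  conjugation. ALL embeddings are written `τ ∘ g`, `g ∈ G = Gal(K/ℚ)`.
* `Ty X`: a CM type, a subset of `G` with `g ∈ Φ ↔ c g ∉ Φ`.
* `Crd f T`: `T` is the product of the `A_(f i) = ℂ^(f i) / (f i)(O_K)`, `i ∈ ι`.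
* `C.z (i,g)`: the coordinate `(i,g)` if `g ∈ f i`, the conjugate of the coordinate `(i, c g)`
  otherwise. On the lattice vector of `y ∈ O_K^ι` it is `τ (g (y i))`. Basis of the space of
  real linear functions `T.V → ℂ`; `C.x (i,g)` is the dual basis.
* `wdg x`: the homology class `x_1 ∧ … ∧ x_m`, `x_j ∈ H_1(T, ℂ)` = dual of that space.
* `PP g`, `g : Fin m → Ty X`: on `∏_j A_(g j)` the class `∧_j x_(j,1)` is algebraic.
-/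

set_option autoImplicit false

open MeasureTheory
open scoped ComplexConjugate

noncomputable section

namespace HC

/-- A Galois CM field of degree `> 2` with an embedding in `ℂ`. -/
structure CMF where
  K : Type
  [fld : Field K]
  [nf : NumberField K]
  [gal : IsGalois ℚ K]
  /-- the embedding `τ₀` -/
  τ : K →+* ℂ
  /-- complex conjugation -/
  c : K ≃ₐ[ℚ] K
  hc : ∀ x, τ (c x) = conj (τ x)
  comm : ∀ g : K ≃ₐ[ℚ] K, c * g = g * c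
  ne : c ≠ 1
  big : 2 < Module.finrank ℚ K

attribute [instance] CMF.fld CMF.nf CMF.gal

/-- The Galois group. -/
abbrev CMF.G (X : CMF) : Type := X.K ≃ₐ[ℚ] X.K

theorem CMF.cc (X : CMF) : X.c * X.c = 1 := by
  ext x
  apply X.τ.injective
  show X.τ (X.c (X.c x)) = X.τ x
  rw [X.hc, X.hc, Complex.conj_conj]

/-- A CM type. -/
@[ext] structure Ty (X : CMF) where
  S : Set X.G
  cm : ∀ g, g ∈ S ↔ X.c * g ∉ S

/-- The conjugate type. -/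
def Ty.conj {X : CMF} (Φ : Ty X) : Ty X where
  S := Φ.Sᶜ
  cm g := by
    rw [Set.mem_compl_iff, Set.mem_compl_iff, Φ.cm g]

/-- The type `Φ h⁻¹ = {g | g h ∈ Φ}`. -/
def Ty.div {X : CMF} (Φ : Ty X) (h : X.G) : Ty X where
  S := {g | g * h ∈ Φ.S}
  cm g := by
    show g * h ∈ Φ.S ↔ X.c * g * h ∉ Φ.S
    rw [mul_assoc]
    exact Φ.cm (g * h)

open Classical in
/-- The characteristic function. -/
def Ty.ind {X : CMF} (Φ : Ty X) (g : X.G) : ℕ := if g ∈ Φ.S then 1 else 0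

variable {X : CMF} {ι : Type}

/-- `∏_i ℂ^(f i)`. -/
abbrev PV (f : ι → Ty X) : Type := ((s : (i : ι) × (f i).S) → ℂ)

/-- `T` is the product of the abelian varieties `ℂ^(f i) / (f i)(O_K)`. -/
structure Crd (f : ι → Ty X) (T : AV) where
  ψ : T.V ≃ₗ[ℂ] PV f
  lat : ∀ v, v ∈ T.L ↔ ∃ y : ι → X.K, (∀ i, IsIntegral ℤ (y i)) ∧
    ∀ (i : ι) (g : (f i).S), ψ v ⟨i, g⟩ = X.τ (g.1 (y i))

/-- The conjugate of a real linear function. -/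
def cjl {V : Type} [AddCommGroup V] [Module ℝ V] (a : V →ₗ[ℝ] ℂ) : V →ₗ[ℝ] ℂ :=
  Complex.conjAe.toLinearMap ∘ₗ a

theorem cjl_apply {V : Type} [AddCommGroup V] [Module ℝ V] (a : V →ₗ[ℝ] ℂ) (v : V) :
    cjl a v = conj (a v) := rfl

/-- The coordinate `(i,g)`, `g ∈ f i`. -/
def Crd.cd {f : ι → Ty X} {T : AV} (C : Crd f T) (i : ι) (g : (f i).S) : T.V →ₗ[ℝ] ℂ :=
  ((LinearMap.proj ⟨i, g⟩ : PV f →ₗ[ℂ] ℂ) ∘ₗ C.ψ.toLinearMap).restrictScalars ℝ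

theorem Crd.cd_apply {f : ι → Ty X} {T : AV} (C : Crd f T) (i : ι) (g : (f i).S) (v : T.V) :
    C.cd i g v = C.ψ v ⟨i, g⟩ := rfl

theorem Ty.cmem {Φ : Ty X} {g : X.G} (h : g ∉ Φ.S) : X.c * g ∈ Φ.S := by
  by_contra h2
  exact h ((Φ.cm g).2 h2)

open Classical in
/-- The function `z_(i,g)`. -/
def Crd.z {f : ι → Ty X} {T : AV} (C : Crd f T) (s : ι × X.G) : T.V →ₗ[ℝ] ℂ :=
  if h : s.2 ∈ (f s.1).S then C.cd s.1 ⟨s.2, h⟩ else cjl (C.cd s.1 ⟨X.c * s.2, Ty.cmem h⟩)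

open Classical in
/-- The basis vector of `T.V` with coordinate `(i,g)` equal to 1. -/
def Crd.e {f : ι → Ty X} {T : AV} (C : Crd f T) (i : ι) (g : (f i).S) : T.V :=
  C.ψ.symm (Pi.single ⟨i, g⟩ 1)

/-- `a ↦ (a(v) - t a(i v))/2`. -/
def dlt {V : Type} [AddCommGroup V] [Module ℂ V] (v : V) (t : ℂ) : (V →ₗ[ℝ] ℂ) →ₗ[ℂ] ℂ where
  toFun a := (a v - t * a (Complex.I • v)) / 2
  map_add' a b := by
    show (a v + b v - t * (a (Complex.I • v) + b (Complex.I • v))) / 2 = _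
    ring
  map_smul' r a := by
    show (r * a v - t * (r * a (Complex.I • v))) / 2 = r * ((a v - t * a (Complex.I • v)) / 2)
    ring

open Classical in
/-- The dual basis `x_(i,g)` of `z_(i,g)`. -/
def Crd.x {f : ι → Ty X} {T : AV} (C : Crd f T) (s : ι × X.G) : (T.V →ₗ[ℝ] ℂ) →ₗ[ℂ] ℂ :=
  if h : s.2 ∈ (f s.1).S then dlt (C.e s.1 ⟨s.2, h⟩) Complex.I
  else dlt (C.e s.1 ⟨X.c * s.2, Ty.cmem h⟩) (-Complex.I)

/-- The class `x_1 ∧ … ∧ x_m`: `a ↦ det (x_j (a_i))`. -/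
def wdg {T : AV} {m : ℕ} (x : Fin m → ((T.V →ₗ[ℝ] ℂ) →ₗ[ℂ] ℂ)) : Hlg T m :=
  MultilinearMap.alternatization ((MultilinearMap.mkPiAlgebra ℂ (Fin m) ℂ).compLinearMap x)

/-- On `∏_j A_(g j)` the class `∧_j x_(j,1)` is algebraic. -/
def PP {m : ℕ} (g : Fin m → Ty X) : Prop :=
  ∀ (T : AV) (C : Crd g T), Alg T m (wdg fun j => C.x (j, 1))

/-! ## part C (helper7) -/

/-- The products exist. -/
def S_C : Prop :=
  ∀ (X : CMF) (ι : Type) [Fintype ι] (f : ι → Ty X), ∃ T : AV, Nonempty (Crd f T)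

/-! ## part B (helper14): classes -/

/-- Formulas for `wdg`. -/
def S_Wdg : Prop :=
  (∀ (T : AV) (m : ℕ) (x : Fin m → ((T.V →ₗ[ℝ] ℂ) →ₗ[ℂ] ℂ)) (a : Fin m → (T.V →ₗ[ℝ] ℂ)),
    wdg x a = Matrix.det (Matrix.of fun i j => x j (a i))) ∧
  (∀ (T T' : AV) (φ : T.V →ₗ[ℂ] T'.V) (m : ℕ) (x : Fin m → ((T.V →ₗ[ℝ] ℂ) →ₗ[ℂ] ℂ)),
    push φ (wdg x) = wdg (T := T') fun j => x j ∘ₗ pull φ) ∧
  (∀ (T : AV) (m n : ℕ) (x : Fin m → ((T.V →ₗ[ℝ] ℂ) →ₗ[ℂ] ℂ))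
    (y : Fin n → ((T.V →ₗ[ℝ] ℂ) →ₗ[ℂ] ℂ)), pont (wdg x) (wdg y) = wdg (Fin.append x y)) ∧
  (∀ (T : AV) (m : ℕ) (x0 : (T.V →ₗ[ℝ] ℂ) →ₗ[ℂ] ℂ) (x : Fin m → ((T.V →ₗ[ℝ] ℂ) →ₗ[ℂ] ℂ))
    (z : T.V →ₗ[ℝ] ℂ), x0 z = 1 → (∀ j, x j z = 0) →
      (wdg (Fin.cons x0 x : Fin (m + 1) → _)).curryLeft z = wdg x) ∧
  (∀ (T : AV) (m : ℕ) (x : Fin m → ((T.V →ₗ[ℝ] ℂ) →ₗ[ℂ] ℂ)) (σ : Equiv.Perm (Fin m)),
    wdg (x ∘ σ) = Equiv.Perm.sign σ • wdg x)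

/-- Expansion in a basis. -/
def S_Exp : Prop :=
  ∀ (T : AV) (κ : Type) [Fintype κ] (b : Module.Basis κ ℂ (T.V →ₗ[ℝ] ℂ)) (m : ℕ) (c : Hlg T m),
    c = ((m.factorial : ℂ)⁻¹) • ∑ s : Fin m → κ, c (fun j => b (s j)) • wdg fun j => b.coord (s j)

/-- Homomorphisms and Hodge classes; multiplication by `N`. -/
def S_PushH : Prop :=
  (∀ (T T' : AV) (φ : T.V →ₗ[ℂ] T'.V), (∀ x ∈ T.L, φ x ∈ T'.L) → ∀ (m : ℕ) (c : Hlg T m),
    IsHodge T m c → IsHodge T' m (push φ c)) ∧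
  ∀ (T T' : AV) (φ : T.V →ₗ[ℂ] T'.V) (ψ : T'.V →ₗ[ℂ] T.V) (N : ℕ), (∀ v, ψ (φ v) = (N : ℂ) • v) →
    ∀ (m : ℕ) (c : Hlg T m), push ψ (push φ c) = ((N : ℂ) ^ m) • c

/-! ## part Z (helper96): coordinates, homomorphisms -/

/-- The functions `z_s` and the dual basis. -/
def S_Z : Prop :=
  ∀ (X : CMF) (ι : Type) [Fintype ι] (f : ι → Ty X) (T : AV) (C : Crd f T),
    (∀ (i : ι) (g : X.G) (v : T.V), C.z (i, X.c * g) v = conj (C.z (i, g) v)) ∧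
    (∀ (i : ι) (g : X.G) (v : T.V), g ∈ (f i).S → C.z (i, g) (Complex.I • v) = Complex.I * C.z (i, g) v) ∧
    (∀ (i : ι) (g : X.G) (v : T.V), g ∉ (f i).S → C.z (i, g) (Complex.I • v) = -Complex.I * C.z (i, g) v) ∧
    (∀ v ∈ T.L, ∃ y : ι → X.K, (∀ i, IsIntegral ℤ (y i)) ∧ ∀ i g, C.z (i, g) v = X.τ (g (y i))) ∧
    (∀ y : ι → X.K, (∀ i, IsIntegral ℤ (y i)) → ∃ v ∈ T.L, ∀ i g, C.z (i, g) v = X.τ (g (y i))) ∧
    ∃ b : Module.Basis (ι × X.G) ℂ (T.V →ₗ[ℝ] ℂ), (∀ s, b s = C.z s) ∧ ∀ s, b.coord s = C.x s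

open Classical in
/-- Homomorphisms: `y ↦ (∑_(a : i' a = j) n_a h_a (y_(i a)))_j`. -/
def S_Hom : Prop :=
  ∀ (X : CMF) (ι ι' κ : Type) [Fintype ι] [Fintype ι'] [Fintype κ] (f : ι → Ty X) (f' : ι' → Ty X)
    (T T' : AV) (C : Crd f T) (C' : Crd f' T') (i : κ → ι) (i' : κ → ι') (h : κ → X.G) (n : κ → X.K),
    (∀ a, IsIntegral ℤ (n a)) → (∀ a g, g ∈ (f' (i' a)).S ↔ g * h a ∈ (f (i a)).S) →
    ∃ φ : T.V →ₗ[ℂ] T'.V, (∀ v ∈ T.L, φ v ∈ T'.L) ∧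
      (∀ (j : ι') (g : X.G), pull φ (C'.z (j, g)) =
        ∑ a, if i' a = j then X.τ (g (n a)) • C.z (i a, g * h a) else 0) ∧
      ∀ (j : ι) (g : X.G), C.x (j, g) ∘ₗ pull φ =
        ∑ a, if i a = j then X.τ (g ((h a)⁻¹ (n a))) • C'.x (i' a, g * (h a)⁻¹) else 0

/-! ## part D (helper81) -/

/-- Isolation of a component of an algebraic class. -/
def S_D : Prop :=
  ∀ (X : CMF) (ι : Type) [Fintype ι] (f : ι → Ty X) (T : AV) (C : Crd f T) (m : ℕ) (c : Hlg T m),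
    Alg T m c → ∀ s : Fin m → ι × X.G, c (fun j => C.z (s j)) ≠ 0 →
      Alg T m (wdg fun j => C.x (s j))

/-! ## part E (helper38) -/

/-- The support of a Hodge class. -/
def S_E : Prop :=
  ∀ (X : CMF) (ι : Type) [Fintype ι] (f : ι → Ty X) (T : AV) (C : Crd f T) (m : ℕ) (c : Hlg T m),
    IsHodge T m c → ∀ s : Fin m → ι × X.G, c (fun j => C.z (s j)) ≠ 0 →
      ∀ h : X.G, 2 * ∑ j, ((f (s j).1).div (s j).2).ind h = m

/-! ## part F (helper31) -/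

/-- The combinatorics of CM types. -/
def S_F : Prop :=
  ∀ (X : CMF) (S : Multiset (Ty X)) (k : ℕ), (∀ g : X.G, (S.map fun Φ => Φ.ind g).sum = k) →
    ∃ (A : Multiset (Ty X)) (R : Multiset (Multiset (Ty X))),
      (∀ r ∈ R, (∃ Φ : Ty X, r = {Φ, Φ.conj}) ∨
        (r.card = 4 ∧ ∀ g : X.G, (r.map fun Φ => Φ.ind g).sum = 2)) ∧
      S + (A + A.map Ty.conj) = R.sum

/-! ## part G (helper21) -/

/-- The intersection with `z_s ∧ z_s'` for complementary types. -/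
def S_G : Prop :=
  ∀ (X : CMF) (ι : Type) [Fintype ι] (f : ι → Ty X) (T : AV) (C : Crd f T) (s s' : ι × X.G),
    ((f s.1).div s.2).conj = (f s'.1).div s'.2 → ∀ (m : ℕ) (c : Hlg T (m + 2)), Alg T (m + 2) c →
      Alg T m ((c.curryLeft (C.z s)).curryLeft (C.z s'))

/-! ## parts K, H (helper18) -/

/-- From the compact ball quotient surfaces (THEOREM T2): four types with `f₀ + f₁ = f₂ + f₃`
containing 1. -/
def S_H : Prop :=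
  ∀ (X : CMF) (f : Fin 4 → Ty X), (∀ i, (1 : X.G) ∈ (f i).S) →
    (∀ g, (f 0).ind g + (f 1).ind g = (f 2).ind g + (f 3).ind g) → ∀ (T : AV) (C : Crd f T),
    ∃ c : Hlg T 4, Alg T 4 c ∧ c ![C.z (0, 1), C.z (1, 1), C.z (2, X.c), C.z (3, X.c)] ≠ 0

/-! ## part I (helper1) -/

/-- Permutations. -/
def S_P0 : Prop :=
  ∀ (X : CMF) (m : ℕ) (g : Fin m → Ty X) (σ : Equiv.Perm (Fin m)), PP g → PP (g ∘ σ)

/-- Pontryagin products. -/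
def S_P1 : Prop :=
  ∀ (X : CMF) (m n : ℕ) (g : Fin m → Ty X) (h : Fin n → Ty X), PP g → PP h → PP (Fin.append g h)

/-- Removing a pair. -/
def S_P2 : Prop :=
  ∀ (X : CMF) (m : ℕ) (g : Fin m → Ty X) (Φ : Ty X),
    PP (Fin.cons Φ (Fin.cons Φ.conj g : Fin (m + 1) → Ty X) : Fin (m + 1 + 1) → Ty X) → PP g

/-- Four types with sum 2. -/
def S_P4 : Prop :=
  ∀ (X : CMF) (f : Fin 4 → Ty X), (∀ g : X.G, ∑ j, (f j).ind g = 2) → PP f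

/-- A pair. -/
def S_P3 : Prop := ∀ (X : CMF) (Φ : Ty X), PP ![Φ, Φ.conj]

/-- Balanced tuples of types. -/
def S_PF : Prop :=
  ∀ (X : CMF) (m k : ℕ) (g : Fin m → Ty X), (∀ h : X.G, ∑ j, (g j).ind h = k) → PP g

/-- Balanced classes on a product. -/
def S_I : Prop :=
  ∀ (X : CMF) (ι : Type) [Fintype ι] (f : ι → Ty X) (T : AV) (C : Crd f T) (m k : ℕ)
    (s : Fin m → ι × X.G), (∀ h : X.G, ∑ j, ((f (s j).1).div (s j).2).ind h = k) →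
      Alg T m (wdg fun j => C.x (s j))

/-! ## part J (helper75, helper28) -/

/-- Reduction to products of the `A_(f i)` for one Galois CM field. -/
def S_J : Prop :=
  ∀ T : AV, IsCM T → ∃ (X : CMF) (n : ℕ) (f : Fin n → Ty X) (T' : AV) (_ : Crd f T')
    (φ : T.V →ₗ[ℂ] T'.V) (ψ : T'.V →ₗ[ℂ] T.V) (N : ℕ), 0 < N ∧ (∀ v ∈ T.L, φ v ∈ T'.L) ∧
      (∀ v ∈ T'.L, ψ v ∈ T.L) ∧ ∀ v, ψ (φ v) = (N : ℂ) • v

end HC
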