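import Pool.Agent.Lib.HC.Z.Hom

/-!
# PROJECT HC: the assembly of `HodgeCM` from the statements of the parts (helper96)
-/

set_option autoImplicit false

noncomputable section

namespace HC

theorem Alg.sum' {T : AV} {m : ℕ} {κ : Type} (s : Finset κ) (c : κ → Hlg T m)
    (h : ∀ j ∈ s, Alg T m (c j)) : Alg T m (∑ j ∈ s, c j) := by
  classical
  induction s using Finset.induction_on with
  | empty =>
    rw [Finset.sum_empty]
    exact Alg.zero
  | insert j s hj ih =>
    rw [Finset.sum_insert hj]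
    exact Alg.add (h j (Finset.mem_insert_self j s)) (ih fun k hk => h k (Finset.mem_insert_of_mem hk))

/-- **The assembly.** -/
theorem main (hExp : S_Exp) (hP : S_PushH) (hE : S_E) (hI : S_I) (hJ : S_J) : HodgeCM := by
  classical
  intro T hT m c hc
  obtain ⟨X, n, f, T', C', φ, ψ, N, hN, hφ, hψ, hc2⟩ := hJ T hT
  have h1 : IsHodge T' m (push φ c) := hP.1 T T' φ hφ m c hc
  have h2 : Alg T' m (push φ c) := by
    rw [hExp T' (Fin n × X.G) C'.zb m (push φ c)]
    refine Alg.smul _ (Alg.sum' _ _ fun s _ => ?_)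
    have e1 : (fun j => C'.zb (s j)) = fun j => C'.z (s j) := funext fun j => C'.zb_apply (s j)
    have e2 : (fun j => C'.zb.coord (s j)) = fun j => C'.x (s j) := funext fun j => C'.zb_coord (s j)
    rw [e1, e2]
    by_cases h0 : push φ c (fun j => C'.z (s j)) = 0
    · rw [h0, zero_smul]
      exact Alg.zero
    · refine Alg.smul _ (hI X (Fin n) f T' C' m (m / 2) s fun h => ?_)
      have h3 := hE X (Fin n) f T' C' m (push φ c) h1 s h0 h
      omega
  have h4 := Alg.push ψ hψ h2
  rw [hP.2 T T' φ ψ N hc2 m c] at h4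
  have h5 : ((N : ℂ) ^ m) ≠ 0 := pow_ne_zero _ (Nat.cast_ne_zero.2 hN.ne')
  have h6 := Alg.smul (((N : ℂ) ^ m)⁻¹) h4
  rw [smul_smul, inv_mul_cancel₀ h5, one_smul] at h6
  exact h6

end HC
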